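import Mathlib

/-!
# Pointwise function spaces into strong `d`-spaces

For a `T0` space `X` the following are equivalent: for every strong `d`-space `Y` the space of
continuous maps `X → Y` with the topology of pointwise convergence is a strong `d`-space; `X` has
at most one point. One countable sober strong `d`-space `Y` is a counterexample for all `X` with at
least two points at once; in particular its square `Y × Y` is not a strong `d`-space.

The space `Y` is the Scott space of the ordered set with the elements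
`0 < 1 < 2 < ... < ω < s, x < a_0, a_1, a_2, ...`, where `s` and `x` are incomparable and the `a_k`
are pairwise incomparable.
-/

open Set

universe u v

namespace Pool.Agent.Results.MP_5f2357_gt.SquareAndAllTwoPointSources

/-- The specialization order: `x ≤ y` iff `x` is in the closure of `{y}`. -/
def SpecLE {X : Type u} [TopologicalSpace X] (x y : X) : Prop := x ∈ closure ({y} : Set X)

/-- `↑x`, the set of the points `y` with `x ≤ y`. -/
def Up {X : Type u} [TopologicalSpace X] (x : X) : Set X := {y | SpecLE x y}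

/-- Nonempty subsets that are directed for the specialization order. -/
def IsDir {X : Type u} [TopologicalSpace X] (D : Set X) : Prop :=
  D.Nonempty ∧ ∀ a ∈ D, ∀ b ∈ D, ∃ c ∈ D, SpecLE a c ∧ SpecLE b c

/-- Strong `d`-spaces. -/
def StrongD (X : Type u) [TopologicalSpace X] : Prop :=
  T0Space X ∧ ∀ (D : Set X) (x : X) (U : Set X), IsDir D → IsOpen U →
    (⋂ d ∈ D, Up d) ∩ Up x ⊆ U → ∃ d ∈ D, Up d ∩ Up x ⊆ U

/-- The set of continuous maps from `X` to `Y`; as a subtype of the product `X → Y` it carries the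
topology of pointwise convergence. -/
abbrev Top0 (X : Type u) (Y : Type v) [TopologicalSpace X] [TopologicalSpace Y] : Type (max u v) :=
  {f : X → Y // Continuous f}

/-- The underlying set of the example. -/
inductive P : Type
  | nat (n : ℕ)
  | om
  | s
  | x
  | a (k : ℕ)

namespace P

/-- The order of the example. -/
def le : P → P → Prop
  | nat m, nat n => m ≤ n
  | nat _, _ => True
  | om, nat _ => False
  | om, _ => True
  | s, s => True
  | s, a _ => True
  | s, _ => False
  | x, x => True
  | x, a _ => True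
  | x, _ => False
  | a i, a j => i = j
  | a _, _ => False

theorem le_refl (p : P) : le p p := by cases p <;> simp [le]

theorem le_trans {p q r : P} (h1 : le p q) (h2 : le q r) : le p r := by
  cases p <;> cases q <;> cases r <;> simp_all [le]
  omega

theorem le_antisymm {p q : P} (h1 : le p q) (h2 : le q p) : p = q := by
  cases p <;> cases q <;> simp_all [le]
  omega

/-- The Scott topology: upper sets `U` such that `ω ∈ U` implies `n ∈ U` for some `n`. -/
instance : TopologicalSpace P where
  IsOpen U := (∀ p ∈ U, ∀ q, le p q → q ∈ U) ∧ (om ∈ U → ∃ n, nat n ∈ U)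
  isOpen_univ := ⟨fun _ _ _ _ => mem_univ _, fun _ => ⟨0, mem_univ _⟩⟩
  isOpen_inter := by
    rintro U V ⟨hU1, hU2⟩ ⟨hV1, hV2⟩
    refine ⟨fun p hp q hq => ⟨hU1 p hp.1 q hq, hV1 p hp.2 q hq⟩, fun h => ?_⟩
    obtain ⟨m, hm⟩ := hU2 h.1
    obtain ⟨n, hn⟩ := hV2 h.2
    exact ⟨max m n, hU1 _ hm _ (le_max_left m n), hV1 _ hn _ (le_max_right m n)⟩
  isOpen_sUnion := by
    intro S hS
    refine ⟨?_, ?_⟩
    · rintro p ⟨U, hU, hp⟩ q hq
      exact ⟨U, hU, (hS U hU).1 p hp q hq⟩
    · rintro ⟨U, hU, hp⟩
      obtain ⟨n, hn⟩ := (hS U hU).2 hp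
      exact ⟨n, U, hU, hn⟩

theorem isOpen_iff {U : Set P} :
    IsOpen U ↔ (∀ p ∈ U, ∀ q, le p q → q ∈ U) ∧ (om ∈ U → ∃ n, nat n ∈ U) := Iff.rfl

/-- Lower closures of points are closed. -/
theorem isClosed_down (q : P) : IsClosed {p | le p q} := by
  rw [← isOpen_compl_iff, isOpen_iff]
  refine ⟨fun p hp r hr h => hp (le_trans hr h), fun h => ?_⟩
  simp only [mem_compl_iff, mem_ofPred_eq] at h
  cases q with
  | nat n => exact ⟨n + 1, by simp [le]⟩
  | om => exact absurd (le_refl om) h
  | s => exact absurd trivial h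
  | x => exact absurd trivial h
  | a k => exact absurd trivial h

theorem specLE_iff (p q : P) : SpecLE p q ↔ le p q := by
  constructor
  · intro h
    have h1 : ({q} : Set P) ⊆ {p | le p q} := by
      rintro _ rfl
      exact le_refl _
    exact closure_minimal h1 (isClosed_down q) h
  · intro h
    rw [SpecLE, mem_closure_iff]
    intro U hU hp
    exact ⟨q, hU.1 p hp q h, rfl⟩

instance : T0Space P := by
  refine ⟨fun p q h => ?_⟩
  apply le_antisymm
  · rw [← specLE_iff, SpecLE, ← specializes_iff_mem_closure]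
    exact h.specializes'
  · rw [← specLE_iff, SpecLE, ← specializes_iff_mem_closure]
    exact h.specializes

theorem isOpen_a (k : ℕ) : IsOpen ({a k} : Set P) := by
  rw [isOpen_iff]
  refine ⟨?_, fun h => by simp at h⟩
  rintro p rfl q hq
  cases q <;> simp_all [le]

theorem isOpen_up_nat (n : ℕ) : IsOpen {p : P | le (nat n) p} := by
  rw [isOpen_iff]
  exact ⟨fun p hp q hq => le_trans hp hq, fun _ => ⟨n, le_refl (nat n)⟩⟩

theorem mem_a_of {p : P} (h1 : le s p) (h2 : le x p) : ∃ k, p = a k := by
  cases p <;> simp_all [le]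

end P

open P

/-- The example is a strong `d`-space. -/
theorem strongD_P : StrongD P := by
  refine ⟨inferInstance, ?_⟩
  intro D y U hD hU hsub
  obtain ⟨⟨d0, hd0⟩, hdir⟩ := hD
  -- first case: `D` has a greatest element
  by_cases hmax : ∃ m ∈ D, ∀ d ∈ D, le d m
  · obtain ⟨m, hm, hm'⟩ := hmax
    refine ⟨m, hm, fun z hz => hsub ⟨?_, hz.2⟩⟩
    rw [mem_iInter₂]
    intro d hd
    show SpecLE d z
    rw [specLE_iff]
    exact P.le_trans (hm' d hd) ((specLE_iff _ _).1 hz.1)
  -- second case: all elements are natural numbers, and they are unbounded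
  have key : ∀ d ∈ D, ∃ n, d = nat n := by
    intro d hd
    by_contra hne
    apply hmax
    have hup : ∀ d ∈ D, (∀ n, d ≠ nat n) → ∀ e ∈ D, le d e → e ≠ d → (∀ n, e ≠ nat n) := by
      intro d _ h e _ hle _ n hn
      subst hn
      cases d <;> simp_all [le]
    -- choose an element of maximal height above `d`
    have hA : ∀ k, a k ∈ D → ∀ d ∈ D, le d (a k) := by
      intro k hk d hd
      obtain ⟨c, hc, h1, h2⟩ := hdir _ hk _ hd
      rw [specLE_iff] at h1 h2
      have : c = a k := by cases c <;> simp_all [le]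
      rwa [this] at h2
    by_cases ha : ∃ k, a k ∈ D
    · obtain ⟨k, hk⟩ := ha
      exact ⟨a k, hk, hA k hk⟩
    have hS : s ∈ D → ∀ d ∈ D, le d s := by
      intro hs d hd
      obtain ⟨c, hc, h1, h2⟩ := hdir _ hs _ hd
      rw [specLE_iff] at h1 h2
      have : c = s := by
        cases c with
        | a k => exact absurd ⟨k, hc⟩ ha
        | _ => simp_all [le]
      rwa [this] at h2
    by_cases hs : s ∈ D
    · exact ⟨s, hs, hS hs⟩
    have hX : x ∈ D → ∀ d ∈ D, le d x := by
      intro hx d hd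
      obtain ⟨c, hc, h1, h2⟩ := hdir _ hx _ hd
      rw [specLE_iff] at h1 h2
      have : c = x := by
        cases c with
        | a k => exact absurd ⟨k, hc⟩ ha
        | _ => simp_all [le]
      rwa [this] at h2
    by_cases hx : x ∈ D
    · exact ⟨x, hx, hX hx⟩
    have hO : om ∈ D := by
      cases d with
      | nat n => exact absurd ⟨n, rfl⟩ hne
      | om => exact hd
      | s => exact absurd hd hs
      | x => exact absurd hd hx
      | a k => exact absurd ⟨k, hd⟩ ha
    refine ⟨om, hO, fun e he => ?_⟩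
    cases e with
    | nat n => trivial
    | om => trivial
    | s => exact absurd he hs
    | x => exact absurd he hx
    | a k => exact absurd ⟨k, he⟩ ha
  have hunb : ∀ n : ℕ, ∃ m, n ≤ m ∧ nat m ∈ D := by
    intro n
    by_contra hcon
    push Not at hcon
    apply hmax
    have hne : {m | nat m ∈ D}.Nonempty := by
      obtain ⟨m, rfl⟩ := key d0 hd0
      exact ⟨m, hd0⟩
    have hfin : {m | nat m ∈ D}.Finite := by
      refine (Set.finite_Iio n).subset fun m hm => ?_
      by_contra h
      exact hcon m (not_lt.1 h) hm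
    obtain ⟨m, hm, hm'⟩ := hfin.exists_maximalFor (fun m => m) _ hne
    refine ⟨nat m, hm, fun e he => ?_⟩
    obtain ⟨k, rfl⟩ := key e he
    show k ≤ m
    rcases Nat.le_total k m with h | h
    · exact h
    · exact hm' he h
  have hinter : ∀ z, le om z → z ∈ ⋂ d ∈ D, Up d := by
    intro z hz
    rw [mem_iInter₂]
    intro d hd
    obtain ⟨n, rfl⟩ := key d hd
    show SpecLE _ _
    rw [specLE_iff]
    exact P.le_trans (show le (nat n) om from trivial) hz
  by_cases hy : le y om
  · have hom : om ∈ U := hsub ⟨hinter om (P.le_refl _), (specLE_iff _ _).2 hy⟩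
    obtain ⟨n, hn⟩ := hU.2 hom
    obtain ⟨m, hnm, hm⟩ := hunb n
    exact ⟨nat m, hm, fun z hz => hU.1 _ hn z
      (P.le_trans (show le (nat n) (nat m) from hnm) ((specLE_iff _ _).1 hz.1))⟩
  · have hy' : le om y := by cases y <;> simp_all [le]
    refine ⟨d0, hd0, fun z hz => hsub ⟨hinter z ?_, hz.2⟩⟩
    exact P.le_trans hy' ((specLE_iff _ _).1 hz.2)

/-- The example is sober. -/
theorem quasiSober_P : QuasiSober P := by
  refine ⟨fun {C} hC hcl => ?_⟩
  -- if `p ∈ C` and `O` is an open set with `p ∈ O` and `C ∩ O ⊆ ↓p`, then `p` is generic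
  have key : ∀ p ∈ C, ∀ O : Set P, IsOpen O → p ∈ O → (∀ q ∈ C, q ∈ O → le q p) →
      IsGenericPoint p C := by
    intro p hp O hO hpO hCO
    rw [isGenericPoint_def]
    refine Subset.antisymm (closure_minimal (singleton_subset_iff.2 hp) hcl) fun q hq => ?_
    by_contra hqp
    have h1 : (C ∩ O).Nonempty := ⟨p, hp, hpO⟩
    have h2 : (C ∩ (closure ({p} : Set P))ᶜ).Nonempty := ⟨q, hq, hqp⟩
    obtain ⟨r, hr, hr1, hr2⟩ := hC.2 O _ hO isClosed_closure.isOpen_compl h1 h2
    exact hr2 ((specLE_iff _ _).2 (hCO r hr hr1))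
  obtain ⟨p0, hp0⟩ := hC.1
  by_cases ha : ∃ k, a k ∈ C
  · obtain ⟨k, hk⟩ := ha
    exact ⟨a k, key _ hk {a k} (isOpen_a k) rfl fun q _ hq => by
      rw [mem_singleton_iff.1 hq]; exact P.le_refl _⟩
  by_cases hs : s ∈ C
  · refine ⟨s, key _ hs {p | le s p} ⟨fun p hp q hq => P.le_trans hp hq, fun h => h.elim⟩
      (P.le_refl s) fun q hq hq' => ?_⟩
    cases q with
    | a k => exact absurd ⟨k, hq⟩ ha
    | _ => simp_all [le]
  by_cases hx : x ∈ C
  · refine ⟨x, key _ hx {p | le x p} ⟨fun p hp q hq => P.le_trans hp hq, fun h => h.elim⟩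
      (P.le_refl x) fun q hq hq' => ?_⟩
    cases q with
    | a k => exact absurd ⟨k, hq⟩ ha
    | _ => simp_all [le]
  by_cases ho : om ∈ C
  · refine ⟨om, key _ ho univ isOpen_univ (mem_univ _) fun q hq _ => ?_⟩
    cases q with
    | nat n => trivial
    | om => trivial
    | s => exact absurd hq hs
    | x => exact absurd hq hx
    | a k => exact absurd ⟨k, hq⟩ ha
  have hnat : ∀ q ∈ C, ∃ n, q = nat n := by
    intro q hq
    cases q with
    | nat n => exact ⟨n, rfl⟩
    | om => exact absurd hq ho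
    | s => exact absurd hq hs
    | x => exact absurd hq hx
    | a k => exact absurd ⟨k, hq⟩ ha
  -- `C` is bounded since it is closed and does not contain `om`
  obtain ⟨N, hN⟩ : ∃ N, nat N ∉ C := hcl.isOpen_compl.2 ho
  have hne : {m | nat m ∈ C}.Nonempty := by
    obtain ⟨m, rfl⟩ := hnat p0 hp0
    exact ⟨m, hp0⟩
  have hfin : {m | nat m ∈ C}.Finite := by
    refine (Set.finite_Iio N).subset fun m hm => ?_
    by_contra h
    have hNm : N ≤ m := not_lt.1 h
    exact hcl.isOpen_compl.1 (nat N) hN (nat m) hNm hm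
  obtain ⟨m, hm, hm'⟩ := hfin.exists_maximalFor (fun m => m) _ hne
  refine ⟨nat m, key _ hm univ isOpen_univ (mem_univ _) fun q hq _ => ?_⟩
  obtain ⟨k, rfl⟩ := hnat q hq
  show k ≤ m
  rcases Nat.le_total k m with h | h
  · exact h
  · exact hm' hq h

instance : Countable P := by
  have : Function.Injective (fun p : P => match p with
      | nat n => (0, n)
      | om => (1, 0)
      | s => (2, 0)
      | x => (3, 0)
      | a k => ((4 : ℕ), k)) := by
    intro p q h
    cases p <;> cases q <;> simp_all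
  exact this.countable

/-- The specialization order of the function space is pointwise. -/
theorem specLE_top0 {X : Type u} {Y : Type v} [TopologicalSpace X] [TopologicalSpace Y]
    (f g : Top0 X Y) : SpecLE f g ↔ ∀ x, SpecLE (f.1 x) (g.1 x) := by
  unfold SpecLE
  have e : g ⤳ f ↔ g.1 ⤳ f.1 := Topology.IsInducing.subtypeVal.specializes_iff.symm
  rw [← specializes_iff_mem_closure, e, specializes_pi]
  exact forall_congr' fun x => specializes_iff_mem_closure

theorem continuous_ite {X : Type u} [TopologicalSpace X] {O : Set X} (hO : IsOpen O) {p q : P}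
    (h : le p q) : Continuous (fun t : X => by classical exact if t ∈ O then q else p) := by
  classical
  refine ⟨fun U hU => ?_⟩
  by_cases hp : p ∈ U
  · have hq : q ∈ U := hU.1 p hp q h
    convert isOpen_univ
    ext t
    simp only [mem_preimage, mem_univ, iff_true]
    split_ifs <;> assumption
  · by_cases hq : q ∈ U
    · convert hO
      ext t
      simp only [mem_preimage]
      split_ifs with ht
      · simp [hq, ht]
      · simp [hp, ht]
    · convert isOpen_empty
      ext t
      simp only [mem_preimage, mem_empty_iff_false, iff_false]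
      split_ifs <;> assumption

/-- The function space is not a strong `d`-space if `X` has two points. -/
theorem not_strongD (X : Type u) [TopologicalSpace X] [T0Space X] [Nontrivial X] :
    ¬ StrongD (Top0 X P) := by
  classical
  obtain ⟨x0, x1, hne⟩ := exists_pair_ne X
  obtain ⟨O, hO, hxor⟩ := exists_isOpen_xor_mem hne
  wlog hx : x1 ∈ O ∧ x0 ∉ O generalizing x0 x1
  · refine this x1 x0 hne.symm ?_ ?_
    · rw [xor_comm]; exact hxor
    · rcases hxor with h | h
      · exact h
      · exact absurd h hx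
  obtain ⟨h1, h0⟩ := hx
  rintro ⟨-, hstr⟩
  -- maps with two values
  let F : (p q : P) → le p q → Top0 X P := fun p q h =>
    ⟨fun t => if t ∈ O then q else p, continuous_ite hO h⟩
  have hF1 : ∀ p q h, (F p q h).1 x1 = q := fun p q h => if_pos h1
  have hF0 : ∀ p q h, (F p q h).1 x0 = p := fun p q h => if_neg h0
  have hFle : ∀ p q h p' q' h', le p p' → le q q' → SpecLE (F p q h) (F p' q' h') := by
    intro p q h p' q' h' hp hq
    rw [specLE_top0]
    intro t
    rw [specLE_iff]
    show le (if t ∈ O then q else p) (if t ∈ O then q' else p')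
    split_ifs <;> assumption
  have hns : ∀ n, le (nat n) s := fun n => trivial
  have hnx : ∀ n, le (nat n) x := fun n => trivial
  have hna : ∀ n k, le (nat n) (a k) := fun n k => trivial
  let f : ℕ → Top0 X P := fun n => F (nat n) s (hns n)
  let g : Top0 X P := F (nat 0) x (hnx 0)
  let U : Set (Top0 X P) := ⋃ k : ℕ, {h | h.1 x1 = a k ∧ le (nat (k + 1)) (h.1 x0)}
  have hU : IsOpen U := by
    refine isOpen_iUnion fun k => ?_
    have e1 : Continuous fun h : Top0 X P => h.1 x1 := (continuous_apply x1).comp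
      continuous_subtype_val
    have e0 : Continuous fun h : Top0 X P => h.1 x0 := (continuous_apply x0).comp
      continuous_subtype_val
    exact ((isOpen_a k).preimage e1).inter ((isOpen_up_nat (k + 1)).preimage e0)
  have hdir : IsDir (range f) := by
    refine ⟨⟨f 0, 0, rfl⟩, ?_⟩
    rintro _ ⟨m, rfl⟩ _ ⟨n, rfl⟩
    exact ⟨f (max m n), ⟨_, rfl⟩,
      hFle _ _ (hns m) _ _ (hns (max m n)) (le_max_left m n) (P.le_refl _),
      hFle _ _ (hns n) _ _ (hns (max m n)) (le_max_right m n) (P.le_refl _)⟩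
  have hsub : (⋂ d ∈ range f, Up d) ∩ Up g ⊆ U := by
    rintro h ⟨hh1, hh2⟩
    rw [mem_iInter₂] at hh1
    have hf : ∀ n, SpecLE (f n) h := fun n => hh1 (f n) ⟨n, rfl⟩
    have hg : SpecLE g h := hh2
    have hs : le s (h.1 x1) := by
      have := (specLE_top0 _ _).1 (hf 0) x1
      rw [specLE_iff, hF1 _ _ (hns 0)] at this
      exact this
    have hx : le x (h.1 x1) := by
      have := (specLE_top0 _ _).1 hg x1
      rw [specLE_iff, hF1 _ _ (hnx 0)] at this
      exact this
    obtain ⟨k, hk⟩ := mem_a_of hs hx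
    refine mem_iUnion.2 ⟨k, hk, ?_⟩
    have := (specLE_top0 _ _).1 (hf (k + 1)) x0
    rw [specLE_iff, hF0 _ _ (hns (k + 1))] at this
    exact this
  obtain ⟨d, ⟨n, rfl⟩, hd⟩ := hstr (range f) g U hdir hU hsub
  -- the map with the values `a n` and `n`
  have hmem : F (nat n) (a n) (hna n n) ∈ Up (f n) ∩ Up g :=
    ⟨hFle _ _ (hns n) _ _ (hna n n) (P.le_refl _) trivial,
      hFle _ _ (hnx 0) _ _ (hna n n) (Nat.zero_le n) trivial⟩
  obtain ⟨k, hk1, hk2⟩ := mem_iUnion.1 (hd hmem)
  rw [hF1 (nat n) (a n) (hna n n)] at hk1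
  rw [hF0 (nat n) (a n) (hna n n)] at hk2
  have e : n = k := by injection hk1
  have h3 : k + 1 ≤ n := hk2
  omega

/-- The square of the example is not a strong `d`-space. -/
theorem not_strongD_sq : ¬ StrongD (P × P) := by
  rintro ⟨-, hstr⟩
  have hle : ∀ p q : P × P, SpecLE p q ↔ le p.1 q.1 ∧ le p.2 q.2 := by
    intro p q
    rw [← specLE_iff, ← specLE_iff]
    unfold SpecLE
    rw [← specializes_iff_mem_closure, ← specializes_iff_mem_closure,
      ← specializes_iff_mem_closure, specializes_prod]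
  let U : Set (P × P) := ⋃ k : ℕ, {h | h.2 = a k ∧ le (nat (k + 1)) h.1}
  have hU : IsOpen U := by
    refine isOpen_iUnion fun k => ?_
    exact ((isOpen_a k).preimage continuous_snd).inter
      ((isOpen_up_nat (k + 1)).preimage continuous_fst)
  have hdir : IsDir (range fun n : ℕ => ((nat n, s) : P × P)) := by
    refine ⟨⟨_, 0, rfl⟩, ?_⟩
    rintro _ ⟨m, rfl⟩ _ ⟨n, rfl⟩
    exact ⟨(nat (max m n), s), ⟨_, rfl⟩, (hle _ _).2 ⟨le_max_left m n, P.le_refl _⟩,
      (hle _ _).2 ⟨le_max_right m n, P.le_refl _⟩⟩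
  have hsub : (⋂ d ∈ range fun n : ℕ => ((nat n, s) : P × P), Up d) ∩ Up (nat 0, x) ⊆ U := by
    rintro h ⟨hh1, hh2⟩
    rw [mem_iInter₂] at hh1
    have hf : ∀ n : ℕ, SpecLE ((nat n, s) : P × P) h := fun n => hh1 _ ⟨n, rfl⟩
    obtain ⟨k, hk⟩ := mem_a_of ((hle _ _).1 (hf 0)).2 ((hle _ _).1 hh2).2
    exact mem_iUnion.2 ⟨k, hk, ((hle _ _).1 (hf (k + 1))).1⟩
  obtain ⟨d, ⟨n, rfl⟩, hd⟩ := hstr _ (nat 0, x) U hdir hU hsub
  have hmem : (nat n, a n) ∈ Up ((nat n, s) : P × P) ∩ Up (nat 0, x) :=
    ⟨(hle _ _).2 ⟨P.le_refl _, trivial⟩, (hle _ _).2 ⟨Nat.zero_le n, trivial⟩⟩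
  obtain ⟨k, hk1, hk2⟩ := mem_iUnion.1 (hd hmem)
  have e : n = k := by injection hk1
  have h3 : k + 1 ≤ n := hk2
  omega

/-- Homeomorphic spaces. -/
theorem StrongD.of_homeo {X : Type u} {Y : Type v} [TopologicalSpace X] [TopologicalSpace Y]
    (e : X ≃ₜ Y) (h : StrongD Y) : StrongD X := by
  obtain ⟨h0, h1⟩ := h
  have hle : ∀ p q : X, SpecLE p q ↔ SpecLE (e p) (e q) := by
    intro p q
    unfold SpecLE
    rw [← specializes_iff_mem_closure, ← specializes_iff_mem_closure,
      e.isInducing.specializes_iff]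
  refine ⟨e.symm.t0Space, fun D x U hD hU hsub => ?_⟩
  have hdir : IsDir (e '' D) := by
    obtain ⟨⟨d, hd⟩, hdir⟩ := hD
    refine ⟨⟨e d, mem_image_of_mem e hd⟩, ?_⟩
    rintro _ ⟨p, hp, rfl⟩ _ ⟨q, hq, rfl⟩
    obtain ⟨c, hc, h1, h2⟩ := hdir p hp q hq
    exact ⟨e c, mem_image_of_mem e hc, (hle _ _).1 h1, (hle _ _).1 h2⟩
  have hsub' : (⋂ d ∈ e '' D, Up d) ∩ Up (e x) ⊆ e '' U := by
    rintro z ⟨hz1, hz2⟩
    obtain ⟨w, rfl⟩ := e.surjective z
    refine mem_image_of_mem e (hsub ⟨?_, (hle _ _).2 hz2⟩)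
    rw [mem_iInter₂] at hz1 ⊢
    intro d hd
    exact (hle _ _).2 (hz1 (e d) (mem_image_of_mem e hd))
  obtain ⟨d, hd, hd'⟩ := h1 (e '' D) (e x) (e '' U) hdir (e.isOpenMap U hU) hsub'
  obtain ⟨d, hd, rfl⟩ := hd
  refine ⟨d, hd, fun z hz => ?_⟩
  obtain ⟨w, hw, hwz⟩ := hd' (⟨(hle _ _).1 hz.1, (hle _ _).1 hz.2⟩ :
    e z ∈ Up (e d) ∩ Up (e x))
  rwa [← e.injective hwz]

/-- If `X` has at most one point, the function space is a strong `d`-space. -/
theorem strongD_of_subsingleton (X : Type u) [TopologicalSpace X] [Subsingleton X] (Y : Type v)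
    [TopologicalSpace Y] (hY : StrongD Y) : StrongD (Top0 X Y) := by
  rcases isEmpty_or_nonempty X with hX | hX
  · refine ⟨⟨fun f g _ => Subtype.ext (funext fun x => hX.elim x)⟩, fun D f U hD hU hsub => ?_⟩
    obtain ⟨d, hd⟩ := hD.1
    have hsing : ∀ f g : Top0 X Y, f = g := fun f g => Subtype.ext (funext fun x => hX.elim x)
    refine ⟨d, hd, fun z hz => hsub ⟨?_, hz.2⟩⟩
    rw [mem_iInter₂]
    intro e _
    rw [hsing e d]
    exact hz.1
  · obtain ⟨x0⟩ := hX
    let e : Top0 X Y ≃ₜ Y :=
      { toFun := fun f => f.1 x0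
        invFun := fun y => ⟨fun _ => y, continuous_const⟩
        left_inv := fun f => Subtype.ext (funext fun x => by rw [Subsingleton.elim x x0])
        right_inv := fun y => rfl
        continuous_toFun := (continuous_apply x0).comp continuous_subtype_val
        continuous_invFun := by
          apply Continuous.subtype_mk
          exact continuous_pi fun _ => continuous_id }
    exact StrongD.of_homeo e hY

/-- **Pointwise function spaces into strong `d`-spaces.**
(1) There is a countable sober strong `d`-space `Y` such that for every `T0` space `X` with at least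
two points the space `Top0 X Y` of continuous maps with the topology of pointwise convergence is not
a strong `d`-space, and such that `Y × Y` is not a strong `d`-space.
(2) For a `T0` space `X`, the space `Top0 X Y` is a strong `d`-space for all strong `d`-spaces `Y` if
and only if `X` has at most one point. -/
theorem result :
    (∃ (Y : Type) (_ : TopologicalSpace Y), Countable Y ∧ QuasiSober Y ∧ StrongD Y ∧
      (∀ (X : Type u) [TopologicalSpace X] [T0Space X] [Nontrivial X], ¬ StrongD (Top0 X Y)) ∧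
      ¬ StrongD (Y × Y)) ∧
    ∀ (X : Type u) [TopologicalSpace X] [T0Space X],
      (∀ (Y : Type) [TopologicalSpace Y], StrongD Y → StrongD (Top0 X Y)) ↔ Subsingleton X := by
  refine ⟨⟨P, inferInstance, inferInstance, quasiSober_P, strongD_P,
    fun X _ _ _ => not_strongD X, not_strongD_sq⟩, fun X _ _ => ⟨fun h => ?_, fun h Y _ hY =>
      strongD_of_subsingleton X Y hY⟩⟩
  by_contra hns
  rw [not_subsingleton_iff_nontrivial] at hns
  exact not_strongD X (h P strongD_P)

end Pool.Agent.Results.MP_5f2357_gt.SquareAndAllTwoPointSources
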